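import Pool.Agent.V5helper14.Sep.Stm

/-!
# Project SE: job DATA
-/

set_option autoImplicit false

namespace Pool.Agent.V5helper86.SE

open Matrix Pool.Agent.V5helper14.Sep Pool.Agent.V5helper14.Hel

lemma cc_pos {K : ℕ} (m : Fin K) : 0 < cc m := by
  rw [cc]
  positivity

lemma cc_le {K : ℕ} (m : Fin K) : cc m ≤ 1 / 20 := by
  rw [cc]
  refine one_div_le_one_div_of_le (by norm_num) ?_
  have : (0 : ℝ) ≤ ((m : ℕ) : ℝ) := Nat.cast_nonneg _
  linarith

lemma cc_inj {K : ℕ} {m m' : Fin K} (h : cc m = cc m') : m = m' := by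
  rw [cc, cc] at h
  have h1 : (0 : ℝ) < 20 + ((m : ℕ) : ℝ) := by positivity
  have h2 : (0 : ℝ) < 20 + ((m' : ℕ) : ℝ) := by positivity
  rw [div_eq_div_iff h1.ne' h2.ne'] at h
  have h3 : ((m : ℕ) : ℝ) = ((m' : ℕ) : ℝ) := by linarith
  exact Fin.ext (by exact_mod_cast h3)

lemma gg_nonneg {K : ℕ} (j : Fin 4) (m : Fin K) : 0 ≤ gg j m := by
  have := cc_pos m
  fin_cases j <;> simp [gg]; linarith

lemma ss_pos (K : ℕ) (j : Fin 4) : 0 < ss K j := by
  have : 0 ≤ ∑ m : Fin K, gg j m := Finset.sum_nonneg fun m _ => gg_nonneg j m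
  rw [ss]
  linarith

lemma coef_apex {K : ℕ} (α : Fin 4 → ℝ) (m : Fin K) :
    coef (K := K) α (Fin.castAdd 4 m) = -(α 3 + cc m * α 2) := by
  rw [coef, Fin.append_left, Fin.sum_univ_four]
  simp [gg]
  ring

lemma coef_seg {K : ℕ} (α : Fin 4 → ℝ) (j : Fin 4) :
    coef (K := K) α (Fin.natAdd K j) = ss K j * α j := by
  rw [coef, Fin.append_right]

lemma sign_mul_pos {s x : ℝ} (hs : 0 < s) : SignType.sign (s * x) = SignType.sign x := by
  rw [sign_mul, sign_pos hs, one_mul]

lemma sign_eq_neg {x y : ℝ} (h : SignType.sign x = SignType.sign y) :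
    SignType.sign (-x) = SignType.sign (-y) := by
  rw [Left.sign_neg, Left.sign_neg, h]

lemma red {K : ℕ} (i₀ : Fin (K + 4)) (α lam : Fin 4 → ℝ)
    (hs : ∀ j, SignType.sign (α j) = SignType.sign (lam j))
    (ha : ∀ m : Fin K, SignType.sign (α 3 + cc m * α 2) = SignType.sign (lam 3 + cc m * lam 2))
    (z1 : ∀ j, α j = 0 ↔ Fin.natAdd K j = i₀)
    (z2 : ∀ m : Fin K, α 3 + cc m * α 2 = 0 ↔ Fin.castAdd 4 m = i₀) :
    (∀ i, SignType.sign (coef (K := K) α i) = SignType.sign (coef (K := K) lam i)) ∧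
      ∀ i, coef (K := K) α i = 0 ↔ i = i₀ := by
  constructor
  · intro i
    refine Fin.addCases (fun m => ?_) (fun j => ?_) i
    · rw [coef_apex, coef_apex]
      exact sign_eq_neg (ha m)
    · rw [coef_seg, coef_seg, sign_mul_pos (ss_pos K j), sign_mul_pos (ss_pos K j)]
      exact hs j
  · intro i
    refine Fin.addCases (fun m => ?_) (fun j => ?_) i
    · rw [coef_apex, neg_eq_zero]
      exact z2 m
    · rw [coef_seg, mul_eq_zero, or_iff_right (ss_pos K j).ne']
      exact z1 j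

lemma mem4 {X0 X1 X2 X3 : Fin 2 → ℝ} (h0 : X0 ∈ segment ℝ (endU 0) (endV 0))
    (h1 : X1 ∈ segment ℝ (endU 1) (endV 1)) (h2 : X2 ∈ segment ℝ (endU 2) (endV 2))
    (h3 : X3 ∈ segment ℝ (endU 3) (endV 3)) :
    ∀ j, (![X0, X1, X2, X3] : Fin 4 → Fin 2 → ℝ) j ∈ sgm4 j := by
  intro j
  fin_cases j
  exacts [h0, h1, h2, h3]

lemma mem1 {y : ℝ} (h1 : -1 ≤ y) (h2 : y ≤ 1) : ![-1, y] ∈ segment ℝ (endU 1) (endV 1) := by
  refine ⟨(1 - y) / 2, (1 + y) / 2, by linarith, by linarith, by ring, ?_⟩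
  ext l
  fin_cases l
  · simp [endU, endV]
    ring
  · simp [endU, endV]
    ring

lemma mem2 {y : ℝ} (h1 : -1 ≤ y) (h2 : y ≤ 1) : ![1, y] ∈ segment ℝ (endU 2) (endV 2) := by
  refine ⟨(1 - y) / 2, (1 + y) / 2, by linarith, by linarith, by ring, ?_⟩
  ext l
  fin_cases l
  · simp [endU, endV]
    ring
  · simp [endU, endV]
    ring

lemma sum4 {q : ℕ} (a0 a1 a2 a3 : ℝ) (X0 X1 X2 X3 : Fin q → ℝ) :
    ∑ j, (![a0, a1, a2, a3] : Fin 4 → ℝ) j • (![X0, X1, X2, X3] : Fin 4 → Fin q → ℝ) j =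
      a0 • X0 + a1 • X1 + a2 • X2 + a3 • X3 := by
  rw [Fin.sum_univ_four]
  rfl

lemma sum41 (a0 a1 a2 a3 : ℝ) : ∑ j, (![a0, a1, a2, a3] : Fin 4 → ℝ) j = a0 + a1 + a2 + a3 := by
  rw [Fin.sum_univ_four]
  rfl

lemma sum42 (a0 a1 a2 a3 : ℝ) :
    ∑ j : Fin 4, (![a0, a1, a2, a3] : Fin 4 → ℝ) j * (((j : ℕ) : ℝ) + 1) =
      a0 + 2 * a1 + 3 * a2 + 4 * a3 := by
  rw [Fin.sum_univ_four]
  simp
  ring

lemma cast_ne {K : ℕ} (m : Fin K) (j : Fin 4) : Fin.castAdd 4 m ≠ Fin.natAdd K j := by
  intro h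
  have := congrArg Fin.val h
  simp at this
  omega

lemma nat_iff {K : ℕ} {j j' : Fin 4} : Fin.natAdd K j = Fin.natAdd K j' ↔ j = j' := by
  constructor
  · intro h
    have := congrArg Fin.val h
    simp at this
    exact Fin.ext this
  · rintro rfl
    rfl

lemma fin4 {P : Fin 4 → Prop} (h0 : P 0) (h1 : P 1) (h2 : P 2) (h3 : P 3) : ∀ j, P j := by
  intro j
  fin_cases j
  exacts [h0, h1, h2, h3]

/-- assembling -/
lemma build {K : ℕ} (i₀ : Fin (K + 4)) (X0 X1 X2 X3 : Fin 2 → ℝ)
    (a0 a1 a2 a3 l0 l1 l2 l3 : ℝ)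
    (h0 : X0 ∈ segment ℝ (endU 0) (endV 0))
    (h1 : X1 ∈ segment ℝ (endU 1) (endV 1)) (h2 : X2 ∈ segment ℝ (endU 2) (endV 2))
    (h3 : X3 ∈ segment ℝ (endU 3) (endV 3))
    (ea : a0 + a1 + a2 + a3 = 0) (eX : a0 • X0 + a1 • X1 + a2 • X2 + a3 • X3 = 0)
    (el : l0 + l1 + l2 + l3 = 0) (el' : l0 + 2 * l1 + 3 * l2 + 4 * l3 = 0)
    (s0 : SignType.sign a0 = SignType.sign l0) (s1 : SignType.sign a1 = SignType.sign l1)
    (s2 : SignType.sign a2 = SignType.sign l2) (s3 : SignType.sign a3 = SignType.sign l3)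
    (sm : ∀ m : Fin K, SignType.sign (a3 + cc m * a2) = SignType.sign (l3 + cc m * l2))
    (z0 : a0 = 0 ↔ Fin.natAdd K 0 = i₀) (z1 : a1 = 0 ↔ Fin.natAdd K 1 = i₀)
    (z2 : a2 = 0 ↔ Fin.natAdd K 2 = i₀) (z3 : a3 = 0 ↔ Fin.natAdd K 3 = i₀)
    (zm : ∀ m : Fin K, a3 + cc m * a2 = 0 ↔ Fin.castAdd 4 m = i₀) :
    ∃ (X : Fin 4 → Fin 2 → ℝ) (α lam : Fin 4 → ℝ),
    (∀ j, X j ∈ sgm4 j) ∧ ∑ j, α j = 0 ∧ ∑ j, α j • X j = 0 ∧ ∑ j, lam j = 0 ∧
    ∑ j, lam j * (((j : ℕ) : ℝ) + 1) = 0 ∧
    (∀ i, SignType.sign (coef (K := K) α i) = SignType.sign (coef (K := K) lam i)) ∧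
    (∀ i, coef (K := K) α i = 0 ↔ i = i₀) := by
  obtain ⟨r1, r2⟩ := red i₀ ![a0, a1, a2, a3] ![l0, l1, l2, l3] (fin4 s0 s1 s2 s3) sm
    (fin4 z0 z1 z2 z3) zm
  exact ⟨![X0, X1, X2, X3], ![a0, a1, a2, a3], ![l0, l1, l2, l3], mem4 h0 h1 h2 h3,
    by rw [sum41, ea], by rw [sum4, eX], by rw [sum41, el], by rw [sum42, el'], r1, r2⟩

lemma spos {x y : ℝ} (hx : 0 < x) (hy : 0 < y) : SignType.sign x = SignType.sign y := by
  rw [sign_pos hx, sign_pos hy]

lemma sneg {x y : ℝ} (hx : x < 0) (hy : y < 0) : SignType.sign x = SignType.sign y := by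
  rw [sign_neg hx, sign_neg hy]

theorem t_DATA : S_DATA := by
  intro K i₀
  refine Fin.addCases (fun m => ?_) (fun j => ?_) i₀
  · -- omit the apex `m`
    have hc := cc_pos m
    have hc' := cc_le m
    have hd : 0 < 5 - 24 * cc m := by linarith
    obtain ⟨y, hy, hy1, hy2⟩ : ∃ y : ℝ, (5 - 24 * cc m) * y = -5 + 144 * cc m ∧ -1 ≤ y ∧ y ≤ 1 :=
      ⟨(-5 + 144 * cc m) / (5 - 24 * cc m), mul_div_cancel₀ _ hd.ne',
        by rw [le_div_iff₀ hd]; linarith, by rw [div_le_iff₀ hd]; linarith⟩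
    refine build (Fin.castAdd 4 m) (endU 0) ![-1, y] (endV 2) (endV 3)
      ((2 - 21 * cc m) / 3) (-(5 - 24 * cc m) / 3) 1 (-cc m) (1 - 2 * cc m) (-2 + 3 * cc m) 1
      (-cc m) (left_mem_segment ℝ _ _) (mem1 hy1 hy2) (right_mem_segment ℝ _ _)
      (right_mem_segment ℝ _ _) (by ring) ?_ (by ring) (by ring)
      (spos (by linarith) (by linarith)) (sneg (by linarith) (by linarith)) rfl rfl
      (fun m' => rfl) ?_ ?_ ?_ ?_ ?_
    · ext l
      fin_cases l
      · simp [endU, endV]
        ring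
      · simp [endU, endV]
        linear_combination (-1 / 3) * hy
    · exact ⟨fun h => absurd h (by linarith), fun h => absurd h.symm (cast_ne m 0)⟩
    · exact ⟨fun h => absurd h (by linarith), fun h => absurd h.symm (cast_ne m 1)⟩
    · exact ⟨fun h => absurd h one_ne_zero, fun h => absurd h.symm (cast_ne m 2)⟩
    · exact ⟨fun h => absurd h (by linarith), fun h => absurd h.symm (cast_ne m 3)⟩
    · intro m'
      constructor
      · intro h
        have : m' = m := cc_inj (by linarith)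
        rw [this]
      · intro h
        have : m' = m := by
          have h1 := congrArg Fin.val h
          simp at h1
          exact Fin.ext h1
        rw [this]
        ring
  · revert j
    refine fin4 ?_ ?_ ?_ ?_
    · refine build (Fin.natAdd K 0) (endU 0) (endV 1) (endU 2) (endV 3) 0 19 (-21) 2 0 1 (-2) 1
        (left_mem_segment ℝ _ _) (right_mem_segment ℝ _ _) (left_mem_segment ℝ _ _)
        (right_mem_segment ℝ _ _) (by norm_num) ?_ (by norm_num) (by norm_num) rfl
        (spos (by norm_num) (by norm_num)) (sneg (by norm_num) (by norm_num))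
        (spos (by norm_num) (by norm_num)) (fun m => ?_) (by simp) ?_ ?_ ?_ (fun m => ?_)
      · ext l
        fin_cases l
        · simp [endU, endV]
          norm_num
        · simp [endU, endV]
          norm_num
      · have hc := cc_pos m
        have hc' := cc_le m
        exact spos (by linarith) (by linarith)
      · rw [nat_iff]
        exact ⟨fun h => absurd h (by norm_num), fun h => absurd h (by decide)⟩
      · rw [nat_iff]
        exact ⟨fun h => absurd h (by norm_num), fun h => absurd h (by decide)⟩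
      · rw [nat_iff]
        exact ⟨fun h => absurd h (by norm_num), fun h => absurd h (by decide)⟩
      · have hc := cc_pos m
        have hc' := cc_le m
        exact ⟨fun h => absurd h (by linarith), fun h => absurd h (cast_ne m 0)⟩
    · refine build (Fin.natAdd K 1) (endV 0) (endU 1) ![1, 0] (endU 3) 21 0 (-30) 9 1 0 (-3) 2
        (right_mem_segment ℝ _ _) (left_mem_segment ℝ _ _) (mem2 (by norm_num) (by norm_num))
        (left_mem_segment ℝ _ _) (by norm_num) ?_ (by norm_num) (by norm_num)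
        (spos (by norm_num) (by norm_num)) rfl (sneg (by norm_num) (by norm_num))
        (spos (by norm_num) (by norm_num)) (fun m => ?_) ?_ (by simp) ?_ ?_ (fun m => ?_)
      · ext l
        fin_cases l
        · simp [endU, endV]
          norm_num
        · simp [endU, endV]
      · have hc := cc_pos m
        have hc' := cc_le m
        exact spos (by linarith) (by linarith)
      · rw [nat_iff]
        exact ⟨fun h => absurd h (by norm_num), fun h => absurd h (by decide)⟩
      · rw [nat_iff]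
        exact ⟨fun h => absurd h (by norm_num), fun h => absurd h (by decide)⟩
      · rw [nat_iff]
        exact ⟨fun h => absurd h (by norm_num), fun h => absurd h (by decide)⟩
      · have hc := cc_pos m
        have hc' := cc_le m
        exact ⟨fun h => absurd h (by linarith), fun h => absurd h (cast_ne m 1)⟩
    · refine build (Fin.natAdd K 2) (endV 0) ![-1, 0] (endU 2) (endU 3) 19 (-30) 0 11 2 (-3) 0 1
        (right_mem_segment ℝ _ _) (mem1 (by norm_num) (by norm_num)) (left_mem_segment ℝ _ _)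
        (left_mem_segment ℝ _ _) (by norm_num) ?_ (by norm_num) (by norm_num)
        (spos (by norm_num) (by norm_num)) (sneg (by norm_num) (by norm_num)) rfl
        (spos (by norm_num) (by norm_num)) (fun m => ?_) ?_ ?_ (by simp) ?_ (fun m => ?_)
      · ext l
        fin_cases l
        · simp [endU, endV]
          norm_num
        · simp [endU, endV]
      · exact spos (by linarith) (by linarith)
      · rw [nat_iff]
        exact ⟨fun h => absurd h (by norm_num), fun h => absurd h (by decide)⟩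
      · rw [nat_iff]
        exact ⟨fun h => absurd h (by norm_num), fun h => absurd h (by decide)⟩
      · rw [nat_iff]
        exact ⟨fun h => absurd h (by norm_num), fun h => absurd h (by decide)⟩
      · exact ⟨fun h => absurd h (by linarith), fun h => absurd h (cast_ne m 2)⟩
    · refine build (Fin.natAdd K 3) (endU 0) (endU 1) (endV 2) (endU 3) 2 (-5) 3 0 1 (-2) 1 0
        (left_mem_segment ℝ _ _) (left_mem_segment ℝ _ _) (right_mem_segment ℝ _ _)
        (left_mem_segment ℝ _ _) (by norm_num) ?_ (by norm_num) (by norm_num)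
        (spos (by norm_num) (by norm_num)) (sneg (by norm_num) (by norm_num))
        (spos (by norm_num) (by norm_num)) rfl (fun m => ?_) ?_ ?_ ?_ (by simp) (fun m => ?_)
      · ext l
        fin_cases l
        · simp [endU, endV]
          norm_num
        · simp [endU, endV]
          norm_num
      · have hc := cc_pos m
        exact spos (by linarith) (by linarith)
      · rw [nat_iff]
        exact ⟨fun h => absurd h (by norm_num), fun h => absurd h (by decide)⟩
      · rw [nat_iff]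
        exact ⟨fun h => absurd h (by norm_num), fun h => absurd h (by decide)⟩
      · rw [nat_iff]
        exact ⟨fun h => absurd h (by norm_num), fun h => absurd h (by decide)⟩
      · have hc := cc_pos m
        exact ⟨fun h => absurd h (by linarith), fun h => absurd h (cast_ne m 3)⟩

end Pool.Agent.V5helper86.SE
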