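import Pool.Agent.V5helper14.Sep.Stm

/-!
# Project SE: jobs DEP and MONO
-/

set_option autoImplicit false

namespace Pool.Agent.V5helper86.SE

open Matrix Pool.Agent.V5helper14.Sep Pool.Agent.V5helper14.Hel

/-- the matrix with the first column `w` and the other columns `Z` -/
def Mw {N : ℕ} (w : Fin (N + 1) → ℝ) (Z : Fin (N + 1) → Fin N → ℝ) :
    Matrix (Fin (N + 1)) (Fin (N + 1)) ℝ :=
  Matrix.of fun a => Fin.cons (w a) (Z a)

lemma det_Mw {N : ℕ} (w : Fin (N + 1) → ℝ) (Z : Fin (N + 1) → Fin N → ℝ) :
    (Mw w Z).det = ∑ a : Fin (N + 1), (-1) ^ (a : ℕ) * w a *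
      Matrix.det (Matrix.of fun l => Z (a.succAbove l)) := by
  rw [Matrix.det_succ_column_zero]
  refine Finset.sum_congr rfl fun a _ => ?_
  have h1 : Mw w Z a 0 = w a := rfl
  have h2 : (Mw w Z).submatrix a.succAbove Fin.succ = Matrix.of fun l => Z (a.succAbove l) := by
    ext i j
    rfl
  rw [h1, h2]

theorem t_DEP : S_DEP := by
  intro N Z ν hν i j
  by_cases h0 : ν = 0
  · simp [h0]
  · have hdet : (Mw (fun a => (if a = i then ν j else 0) - (if a = j then ν i else 0)) Z).det = 0 := by
      rw [← Matrix.exists_vecMul_eq_zero_iff]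
      refine ⟨ν, h0, ?_⟩
      funext b
      refine Fin.cases ?_ (fun l => ?_) b
      · have : ∀ a, ν a * ((if a = i then ν j else 0) - (if a = j then ν i else 0)) =
            (if a = i then ν a * ν j else 0) - (if a = j then ν a * ν i else 0) := by
          intro a
          split_ifs <;> ring
        change ∑ a, ν a * ((if a = i then ν j else 0) - (if a = j then ν i else 0)) = 0
        rw [Finset.sum_congr rfl fun a _ => this a, Finset.sum_sub_distrib, Finset.sum_ite_eq',
          Finset.sum_ite_eq', if_pos (Finset.mem_univ _), if_pos (Finset.mem_univ _)]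
        ring
      · change ∑ a, ν a * Z a l = 0
        have h1 := congrFun hν l
        rw [Finset.sum_apply] at h1
        simpa using h1
    rw [det_Mw] at hdet
    have h2 : ∀ a : Fin (N + 1), (-1 : ℝ) ^ (a : ℕ) *
        ((if a = i then ν j else 0) - (if a = j then ν i else 0)) *
        Matrix.det (Matrix.of fun l => Z (a.succAbove l)) =
        (if a = i then (-1 : ℝ) ^ (a : ℕ) * Matrix.det (Matrix.of fun l => Z (a.succAbove l)) * ν j
          else 0) -
        (if a = j then (-1 : ℝ) ^ (a : ℕ) * Matrix.det (Matrix.of fun l => Z (a.succAbove l)) * ν i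
          else 0) := by
      intro a
      split_ifs <;> ring
    rw [Finset.sum_congr rfl fun a _ => h2 a, Finset.sum_sub_distrib, Finset.sum_ite_eq',
      Finset.sum_ite_eq', if_pos (Finset.mem_univ _), if_pos (Finset.mem_univ _)] at hdet
    linarith

theorem t_MONO : S_MONO := by
  intro N f hf i hi
  have h1 : ∀ l, ∃ b : Fin (N + 1), i.succAbove b = f l := fun l => Fin.exists_succAbove_eq (hi l)
  choose g hg using h1
  have hgm : StrictMono g := by
    intro a b hab
    have h2 : i.succAbove (g a) < i.succAbove (g b) := by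
      rw [hg, hg]
      exact hf hab
    exact (Fin.strictMono_succAbove i).lt_iff_lt.1 h2
  obtain ⟨j, hj⟩ : ∃ j, ∀ l, g l ≠ j := by
    by_contra hcon
    push Not at hcon
    have h3 := Fintype.card_le_of_surjective g hcon
    simp at h3
  refine ⟨j, ?_⟩
  have h4 : Set.range g = Set.range j.succAbove := by
    have h5 : Finset.univ.image g = Finset.univ.image j.succAbove := by
      refine Finset.eq_of_subset_of_card_le ?_ ?_
      · intro x hx
        obtain ⟨l, -, rfl⟩ := Finset.mem_image.1 hx
        obtain ⟨b, hb⟩ := Fin.exists_succAbove_eq (hj l)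
        exact Finset.mem_image.2 ⟨b, Finset.mem_univ _, hb⟩
      · rw [Finset.card_image_of_injective _ hgm.injective,
          Finset.card_image_of_injective _ (Fin.strictMono_succAbove j).injective]
    ext x
    have h6 := Finset.ext_iff.1 h5 x
    simpa using h6
  have h7 : g = j.succAbove := (StrictMono.range_inj hgm (Fin.strictMono_succAbove j)).1 h4
  funext l
  rw [← hg l, h7]

end Pool.Agent.V5helper86.SE
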